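import Mathlib

set_option autoImplicit false

/-!
# Digraphs with a height function are not avoidable
-/

namespace Pool.Agent.Results.MP_f1492e_co.HeightFunctions

/-- A digraph with vertex set `V`: no loops and no parallel arcs (opposite arcs are allowed). -/
structure Dig (V : Type*) where
  /-- `arc u v` means that `(u, v)` is an arc. -/
  arc : V → V → Prop
  ne_of_arc : ∀ {u v : V}, arc u v → u ≠ v

/-- `δ⁺(D) ≥ k`. -/
def Dig.MinOut {V : Type*} (D : Dig V) (k : ℕ) : Prop :=
  ∀ v, k ≤ {w | D.arc v w}.ncard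

/-- A subdigraph of `D`: a nonempty set of vertices and a set of arcs of `D` between them. -/
structure SubDig {V : Type*} (D : Dig V) where
  verts : Set V
  nonempty : verts.Nonempty
  arc : V → V → Prop
  arc_of_arc : ∀ {u v : V}, arc u v → D.arc u v
  left_mem : ∀ {u v : V}, arc u v → u ∈ verts
  right_mem : ∀ {u v : V}, arc u v → v ∈ verts

/-- `δ⁺(D') ≥ k` for a subdigraph `D'`. -/
def SubDig.MinOut {V : Type*} {D : Dig V} (D' : SubDig D) (k : ℕ) : Prop :=
  ∀ v ∈ D'.verts, k ≤ {w | D'.arc v w}.ncard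

/-- The subdigraph `D'` contains a subdigraph isomorphic to `F`. -/
def SubDig.Contains {V W : Type*} {D : Dig V} (D' : SubDig D) (F : Dig W) : Prop :=
  ∃ φ : W → V, Function.Injective φ ∧ (∀ a, φ a ∈ D'.verts) ∧
    ∀ a b, F.arc a b → D'.arc (φ a) (φ b)

/-- The digraph `F` is avoidable: there is a function `d_F` such that for every `k`, every finite
digraph `D` with `δ⁺(D) ≥ d_F(k)` has a nonempty `F`-free subdigraph `D'` with `δ⁺(D') ≥ k`. -/
def Avoidable {W : Type*} (F : Dig W) : Prop :=
  ∃ dF : ℕ → ℕ, ∀ (k : ℕ) (V : Type) [Finite V] [Nonempty V] (D : Dig V),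
    D.MinOut (dF k) → ∃ D' : SubDig D, ¬ D'.Contains F ∧ D'.MinOut k

/-! ### Uniform sets -/

/-- `Z` is uniform of depth `n` for `ω`: all vertices of `Z` have out-arcs, they have the same
out-neighbourhood with respect to `ω`, and this out-neighbourhood is uniform of depth `n - 1`. -/
def Unif {V : Type*} (arc ω : V → V → Prop) : ℕ → Set V → Prop
  | 0, _ => True
  | n + 1, Z => (∀ z ∈ Z, ∃ y, arc z y) ∧
      ∃ Z' : Set V, (∀ z ∈ Z, {y | ω z y} = Z') ∧ Unif arc ω n Z'

lemma Unif.mono {V : Type*} {arc ω : V → V → Prop} {n : ℕ} {Z₁ Z₂ : Set V} (h : Z₁ ⊆ Z₂)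
    (hZ : Unif arc ω n Z₂) : Unif arc ω n Z₁ := by
  cases n with
  | zero => trivial
  | succ n =>
    obtain ⟨h1, Z', h2, h3⟩ := hZ
    exact ⟨fun z hz => h1 z (h hz), Z', fun z hz => h2 z (h hz), h3⟩

/-- The layered part of the construction. -/
theorem exists_layers (d s : ℕ) (hd : 0 < d) (n : ℕ) :
    ∃ (V : Type) (_ : Finite V) (_ : Nonempty V) (arc : V → V → Prop) (rk : V → ℕ),
      (∀ u v, arc u v → rk v < rk u) ∧
      (∀ u, (∃ v, arc u v) → d ≤ {v | arc u v}.ncard) ∧
      ∀ S : Set (V → V → Prop), (∀ ω ∈ S, ∀ u v, ω u v → arc u v) → S.ncard ≤ s →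
        ∃ Z : Set V, Z.ncard = d ∧ ∀ ω ∈ S, Unif arc ω n Z := by
  induction n with
  | zero =>
    refine ⟨Fin d, inferInstance, ⟨⟨0, hd⟩⟩, fun _ _ => False, fun _ => 0, ?_, ?_, ?_⟩
    · intro u v h; exact h.elim
    · rintro u ⟨v, hv⟩; exact hv.elim
    · intro S _ _
      exact ⟨Set.univ, by simp [Set.ncard_univ], fun _ _ => trivial⟩
  | succ n ih =>
    obtain ⟨V, hfin, hne, arc, rk, hrk, hout, hS⟩ := ih
    let T := {Z : Set V // Z.ncard = d}
    let M := (Nat.card (Set V)) ^ s * d
    let arc' : V ⊕ (T × Fin M) → V ⊕ (T × Fin M) → Prop := fun a b =>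
      match a, b with
      | Sum.inl u, Sum.inl v => arc u v
      | Sum.inr p, Sum.inl v => v ∈ p.1.1
      | _, _ => False
    have harc'_inr : ∀ (a : V ⊕ (T × Fin M)) (p : T × Fin M), ¬ arc' a (Sum.inr p) := by
      rintro (a | a) p h <;> exact h
    obtain ⟨R, hR⟩ : ∃ R : ℕ, ∀ v, rk v < R := by
      have : (Set.range rk).Finite := Set.finite_range rk
      obtain ⟨R, hR⟩ := this.bddAbove
      exact ⟨R + 1, fun v => Nat.lt_succ_of_le (hR ⟨v, rfl⟩)⟩
    let rk' : V ⊕ (T × Fin M) → ℕ := Sum.elim rk (fun _ => R)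
    refine ⟨V ⊕ (T × Fin M), inferInstance, inferInstance, arc', rk', ?_, ?_, ?_⟩
    · rintro (u | u) (v | v) h
      · exact hrk u v h
      · exact False.elim h
      · exact hR v
      · exact False.elim h
    · rintro (u | p) ⟨v, hv⟩
      · have h1 : {v | arc' (Sum.inl u) v} = Sum.inl '' {v | arc u v} := by
          ext y
          rcases y with y | y
          · simp [arc']
          · simp [arc']
        rw [h1, Set.ncard_image_of_injective _ Sum.inl_injective]
        rcases v with v | v
        · exact hout u ⟨v, hv⟩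
        · exact False.elim hv
      · have h1 : {v | arc' (Sum.inr p) v} = Sum.inl '' (p.1.1 : Set V) := by
          ext y
          rcases y with y | y
          · simp [arc']
          · simp [arc']
        rw [h1, Set.ncard_image_of_injective _ Sum.inl_injective, p.1.2]
    · intro S' hS' hcard
      let res : (V ⊕ (T × Fin M) → V ⊕ (T × Fin M) → Prop) → (V → V → Prop) :=
        fun ω' u v => ω' (Sum.inl u) (Sum.inl v)
      have hfinS' : S'.Finite := Set.toFinite S'
      obtain ⟨Z, hZd, hZ⟩ := hS (res '' S')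
        (by rintro _ ⟨ω', hω', rfl⟩ u v h; exact hS' ω' hω' _ _ h)
        ((Set.ncard_image_le hfinS').trans hcard)
      let f : Fin M → (S' → Set V) := fun m ω' => {v | ω'.1 (Sum.inr (⟨Z, hZd⟩, m)) (Sum.inl v)}
      have hfinS2 : Finite S' := hfinS'
      classical
      have : Fintype (S' → Set V) := Fintype.ofFinite _
      have hpig : ∃ g : S' → Set V, d ≤ (Finset.univ.filter (fun m => f m = g)).card := by
        apply Fintype.exists_le_card_fiber_of_mul_le_card f
        rw [Fintype.card_fin]
        apply Nat.mul_le_mul_right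
        rw [← Nat.card_eq_fintype_card, Nat.card_fun]
        have h1 : 0 < Nat.card (Set V) := Nat.card_pos
        apply Nat.pow_le_pow_right h1
        rwa [Nat.card_coe_set_eq]
      obtain ⟨g, hg⟩ := hpig
      obtain ⟨I, hI1, hI2⟩ := Finset.exists_subset_card_eq hg
      refine ⟨(fun m : Fin M => (Sum.inr (⟨Z, hZd⟩, m) : V ⊕ (T × Fin M))) '' (I : Set (Fin M)),
        ?_, ?_⟩
      · rw [Set.ncard_image_of_injective, Set.ncard_coe_finset, hI2]
        intro m m' h
        simpa using h
      · intro ω' hω'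
        have hgsub : g ⟨ω', hω'⟩ ⊆ Z := by
          have hIne : I.Nonempty := by
            rw [← Finset.card_pos, hI2]; exact hd
          obtain ⟨m, hm⟩ := hIne
          have h1 := (Finset.mem_filter.mp (hI1 hm)).2
          intro v hv
          rw [← h1] at hv
          exact hS' ω' hω' _ _ hv
        have htrans : ∀ (n : ℕ) (Y : Set V), Unif arc (res ω') n Y →
            Unif arc' ω' n (Sum.inl '' Y) := by
          intro n
          induction n with
          | zero => intro Y _; trivial
          | succ n ih =>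
            rintro Y ⟨h1, Y', h2, h3⟩
            refine ⟨?_, Sum.inl '' Y', ?_, ih Y' h3⟩
            · rintro _ ⟨z, hz, rfl⟩
              obtain ⟨y, hy⟩ := h1 z hz
              exact ⟨Sum.inl y, hy⟩
            · rintro _ ⟨z, hz, rfl⟩
              rw [← h2 z hz]
              ext y
              rcases y with y | y
              · simp [res]
              · simp only [Set.mem_ofPred_eq, Set.mem_image, reduceCtorEq, and_false,
                  exists_false, iff_false]
                intro h
                exact harc'_inr _ _ (hS' ω' hω' _ _ h)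
        refine ⟨?_, Sum.inl '' g ⟨ω', hω'⟩, ?_, ?_⟩
        · rintro _ ⟨m, _, rfl⟩
          have hZne : Z.Nonempty := by
            rw [← Set.ncard_pos, hZd]; exact hd
          obtain ⟨z, hz⟩ := hZne
          exact ⟨Sum.inl z, hz⟩
        · rintro _ ⟨m, hm, rfl⟩
          have h1 := (Finset.mem_filter.mp (hI1 hm)).2
          rw [← h1]
          ext y
          rcases y with y | y
          · simp [f]
          · simp only [Set.mem_ofPred_eq, Set.mem_image, reduceCtorEq, and_false,
              exists_false, iff_false]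
            intro h
            exact harc'_inr _ _ (hS' ω' hω' _ _ h)
        · exact htrans n _ ((hZ _ ⟨ω', hω', rfl⟩).mono hgsub)


/-- A chain of sets read off from a uniform set. -/
lemma Unif.exists_chain {V : Type*} {arc ω : V → V → Prop} {n : ℕ} {Z : Set V}
    (h : Unif arc ω n Z) : ∃ A : ℕ → Set V, A 0 = Z ∧
      ∀ i < n, (∀ z ∈ A i, ∃ y, arc z y) ∧ ∀ z ∈ A i, {y | ω z y} = A (i + 1) := by
  induction n generalizing Z with
  | zero => exact ⟨fun _ => Z, rfl, fun i hi => absurd hi (Nat.not_lt_zero i)⟩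
  | succ n ih =>
    obtain ⟨h1, Z', h2, h3⟩ := h
    obtain ⟨A, hA0, hA⟩ := ih h3
    refine ⟨fun i => Nat.casesOn i Z A, rfl, ?_⟩
    intro i hi
    cases i with
    | zero =>
      refine ⟨h1, fun z hz => ?_⟩
      show _ = A 0
      rw [hA0]; exact h2 z hz
    | succ i => exact hA i (Nat.lt_of_succ_lt_succ hi)

/-- The main construction: for all `d` and `n` there is a digraph of minimum out-degree at least
`d` such that each subdigraph of minimum out-degree at least `k ≥ 2` contains sets
`A 0, …, A n`, pairwise disjoint, of size at least `k`, with all arcs from `A i` to `A (i+1)`. -/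
theorem exists_digraph (d n : ℕ) :
    ∃ (V : Type) (_ : Finite V) (_ : Nonempty V) (D : Dig V), D.MinOut d ∧
      ∀ (k : ℕ), 2 ≤ k → ∀ D' : SubDig D, D'.MinOut k →
        ∃ A : ℕ → Set V, (∀ i ≤ n, k ≤ (A i).ncard ∧ A i ⊆ D'.verts) ∧
          (∀ i < n, ∀ x ∈ A i, ∀ y ∈ A (i + 1), D'.arc x y) ∧
          (∀ i ≤ n, ∀ j ≤ n, i ≠ j → Disjoint (A i) (A j)) := by
  -- we may assume `d ≥ 2`
  wlog hd : 2 ≤ d generalizing d
  · obtain ⟨V, h1, h2, D, hD, h3⟩ := this (d + 2) (by omega)
    exact ⟨V, h1, h2, D, fun v => le_trans (by omega) (hD v), h3⟩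
  obtain ⟨V, hfin, hne, arc, rk, hrk, hout, hS⟩ := exists_layers d (d - 1) (by omega) n
  let Om := {ω : V → V → Prop // ∀ u v, ω u v → arc u v} × Fin d
  have hOmcard : d ≤ Nat.card Om := by
    have h1 : Nonempty {ω : V → V → Prop // ∀ u v, ω u v → arc u v} :=
      ⟨⟨fun _ _ => False, fun _ _ h => h.elim⟩⟩
    have h2 : 0 < Nat.card {ω : V → V → Prop // ∀ u v, ω u v → arc u v} := Nat.card_pos
    rw [Nat.card_prod, Nat.card_fin]
    exact Nat.le_mul_of_pos_left d h2
  let P := {B : Set Om // d - 1 ≤ B.ncard}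
  have hZ : ∀ B : P, B.1.ncard = d - 1 → ∃ Z : Set V, Z.ncard = d ∧
      ∀ ω ∈ B.1, Unif arc ω.1.1 n Z := by
    intro B hB
    obtain ⟨Z, h1, h2⟩ := hS ((fun ω : Om => ω.1.1) '' B.1)
      (by rintro _ ⟨ω, _, rfl⟩; exact ω.1.2)
      ((Set.ncard_image_le (Set.toFinite _)).trans hB.le)
    exact ⟨Z, h1, fun ω hω => h2 _ ⟨ω, hω, rfl⟩⟩
  choose! N hN1 hN2 using hZ
  let arcW : V ⊕ P → V ⊕ P → Prop := fun a b =>
    match a, b with
    | Sum.inl u, Sum.inl v => arc u v
    | Sum.inl u, Sum.inr B => (∀ v, ¬ arc u v) ∧ ∃ ω, B.1 = {ω}ᶜ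
    | Sum.inr B, Sum.inl v => B.1.ncard = d - 1 ∧ v ∈ N B
    | Sum.inr B, Sum.inr B' => d ≤ B.1.ncard ∧ ∃ ω ∈ B.1, B'.1 = B.1 \ {ω}
  let D : Dig (V ⊕ P) :=
    { arc := arcW
      ne_of_arc := by
        rintro (u | B) (v | B') h hEq
        · have h1 := hrk u v h
          have h2 : u = v := Sum.inl_injective hEq
          rw [h2] at h1
          exact lt_irrefl _ h1
        · exact Sum.inl_ne_inr hEq
        · exact Sum.inr_ne_inl hEq
        · obtain ⟨_, ω, hω, h1⟩ := h
          have h2 : B = B' := Sum.inr_injective hEq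
          rw [← h2] at h1
          have h3 : ω ∈ B.1 \ {ω} := h1 ▸ hω
          exact h3.2 rfl }
  refine ⟨V ⊕ P, inferInstance, inferInstance, D, ?_, ?_⟩
  · -- minimum out-degree
    rintro (u | B)
    · by_cases hu : ∃ v, arc u v
      · refine (hout u hu).trans ?_
        rw [← Set.ncard_image_of_injective {v | arc u v} (Sum.inl_injective (β := P))]
        apply Set.ncard_le_ncard _ (Set.toFinite _)
        rintro _ ⟨v, hv, rfl⟩
        exact hv
      · push Not at hu
        have hcompl : ∀ ω : Om, d - 1 ≤ ({ω}ᶜ : Set Om).ncard := by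
          intro ω
          rw [Set.ncard_compl, Set.ncard_singleton]
          omega
        let g : Om → V ⊕ P := fun ω => Sum.inr ⟨{ω}ᶜ, hcompl ω⟩
        have hg : Function.Injective g := by
          intro ω ω' h
          have h1 : ({ω}ᶜ : Set Om) = {ω'}ᶜ := congrArg Subtype.val (Sum.inr_injective h)
          exact Set.singleton_injective (compl_injective h1)
        have h1 : d ≤ (Set.range g).ncard := by
          rw [← Set.image_univ, Set.ncard_image_of_injective _ hg, Set.ncard_univ]
          exact hOmcard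
        refine h1.trans (Set.ncard_le_ncard ?_ (Set.toFinite _))
        rintro _ ⟨ω, rfl⟩
        exact ⟨hu, ω, rfl⟩
    · rcases Nat.lt_or_ge B.1.ncard d with hB | hB
      · have hB' : B.1.ncard = d - 1 := le_antisymm (by omega) B.2
        rw [← hN1 B hB', ← Set.ncard_image_of_injective (N B) (Sum.inl_injective (β := P))]
        apply Set.ncard_le_ncard _ (Set.toFinite _)
        rintro _ ⟨v, hv, rfl⟩
        exact ⟨hB', hv⟩
      · have hcompl : ∀ ω ∈ B.1, d - 1 ≤ (B.1 \ {ω}).ncard := by
          intro ω hω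
          rw [Set.ncard_sdiff_singleton_of_mem hω]
          omega
        let g : B.1 → V ⊕ P := fun ω => Sum.inr ⟨B.1 \ {ω.1}, hcompl ω.1 ω.2⟩
        have hg : Function.Injective g := by
          intro ω ω' h
          have h1 : B.1 \ {ω.1} = B.1 \ {ω'.1} := congrArg Subtype.val (Sum.inr_injective h)
          by_contra hne
          have h2 : ω.1 ∈ B.1 \ {ω'.1} := ⟨ω.2, fun h => hne (Subtype.ext h)⟩
          rw [← h1] at h2
          exact h2.2 rfl
        have h1 : d ≤ (Set.range g).ncard := by
          rw [← Set.image_univ, Set.ncard_image_of_injective _ hg, Set.ncard_univ,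
            Nat.card_coe_set_eq]
          exact hB
        refine h1.trans (Set.ncard_le_ncard ?_ (Set.toFinite _))
        rintro _ ⟨ω, rfl⟩
        exact ⟨hB, ω.1, ω.2, rfl⟩
  · -- subdigraphs
    intro k hk D' hD'
    -- the choices made by the subdigraph
    let ω₀ : Om := (⟨fun u v => D'.arc (Sum.inl u) (Sum.inl v), fun u v h => D'.arc_of_arc h⟩,
      ⟨0, by omega⟩)
    -- there are at least two out-neighbours
    have htwo : ∀ a ∈ D'.verts, ∃ b c, D'.arc a b ∧ D'.arc a c ∧ b ≠ c := by
      intro a ha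
      have h1 : 1 < {w | D'.arc a w}.ncard := lt_of_lt_of_le (by omega) (hD' a ha)
      obtain ⟨b, hb, c, hc, hbc⟩ := (Set.one_lt_ncard (Set.toFinite _)).mp h1
      exact ⟨b, c, hb, hc, hbc⟩
    -- step 1: some set containing `ω₀`
    have step1 : ∃ B : P, Sum.inr B ∈ D'.verts ∧ ω₀ ∈ B.1 := by
      by_cases hl : ∃ u, Sum.inl u ∈ D'.verts
      · have hmin : ∃ u, Sum.inl u ∈ D'.verts ∧ ∀ v, Sum.inl v ∈ D'.verts → rk u ≤ rk v := by
          have h1 : {u | Sum.inl u ∈ D'.verts}.Nonempty := hl
          obtain ⟨u, hu, h2⟩ := Set.exists_min_image {u | Sum.inl u ∈ D'.verts} rk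
            (Set.toFinite _) h1
          exact ⟨u, hu, h2⟩
        obtain ⟨u, hu, hmin⟩ := hmin
        have hform : ∀ b, D'.arc (Sum.inl u) b → ∃ (B : P) (ω : Om), b = Sum.inr B ∧
            B.1 = {ω}ᶜ := by
          rintro (v | B) hb
          · exfalso
            have h1 := hrk u v (D'.arc_of_arc hb)
            have h2 := hmin v (D'.right_mem hb)
            omega
          · obtain ⟨_, ω, hω⟩ := D'.arc_of_arc hb
            exact ⟨B, ω, rfl, hω⟩
        obtain ⟨b, c, hb, hc, hbc⟩ := htwo _ hu
        obtain ⟨B, ω, rfl, hB⟩ := hform b hb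
        obtain ⟨C, ω', rfl, hC⟩ := hform c hc
        by_cases h1 : ω = ω₀
        · refine ⟨C, D'.right_mem hc, ?_⟩
          rw [hC]
          intro h2
          apply hbc
          have h3 : ω₀ = ω' := h2
          have : B = C := Subtype.ext (by rw [hB, hC, h1, h3])
          rw [this]
        · refine ⟨B, D'.right_mem hb, ?_⟩
          rw [hB]
          exact fun h2 => h1 (Eq.symm h2)
      · exfalso
        push Not at hl
        obtain ⟨a, ha⟩ := D'.nonempty
        have h1 : {B : P | Sum.inr B ∈ D'.verts}.Nonempty := by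
          rcases a with a | B
          · exact (hl a ha).elim
          · exact ⟨B, ha⟩
        obtain ⟨B, hB, h2⟩ := Set.exists_min_image {B : P | Sum.inr B ∈ D'.verts}
          (fun B => B.1.ncard) (Set.toFinite _) h1
        obtain ⟨b, c, hb, -, -⟩ := htwo _ hB
        rcases b with v | B'
        · exact hl v (D'.right_mem hb)
        · obtain ⟨_, ω, hω, h3⟩ := D'.arc_of_arc hb
          have h4 := h2 B' (D'.right_mem hb)
          have h5 : B'.1.ncard < B.1.ncard := by
            rw [h3]
            exact Set.ncard_sdiff_singleton_lt_of_mem hω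
          exact absurd h4 (not_le.mpr h5)
    -- step 2: a set of size `d - 1` containing `ω₀`
    have step2 : ∃ B : P, Sum.inr B ∈ D'.verts ∧ ω₀ ∈ B.1 ∧ B.1.ncard = d - 1 := by
      obtain ⟨B, ⟨hB, hB0⟩, hmin⟩ := Set.exists_min_image
        {B : P | Sum.inr B ∈ D'.verts ∧ ω₀ ∈ B.1} (fun B => B.1.ncard) (Set.toFinite _) step1
      refine ⟨B, hB, hB0, ?_⟩
      by_contra hcon
      have hBd : d ≤ B.1.ncard := by
        have := B.2
        omega
      have hform : ∀ b, D'.arc (Sum.inr B) b → ∃ (B' : P) (ω : Om), b = Sum.inr B' ∧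
          ω ∈ B.1 ∧ B'.1 = B.1 \ {ω} := by
        rintro (v | B') hb
        · exact (hcon (D'.arc_of_arc hb).1).elim
        · obtain ⟨_, ω, hω, h⟩ := D'.arc_of_arc hb
          exact ⟨B', ω, rfl, hω, h⟩
      have hno : ∀ (B' : P) (ω : Om), D'.arc (Sum.inr B) (Sum.inr B') → ω ∈ B.1 →
          B'.1 = B.1 \ {ω} → ω = ω₀ := by
        intro B' ω hb hω h
        by_contra hne
        have h1 : ω₀ ∈ B'.1 := by
          rw [h]
          exact ⟨hB0, fun h2 => hne (Eq.symm h2)⟩
        have h2 := hmin B' ⟨D'.right_mem hb, h1⟩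
        have h3 : B'.1.ncard < B.1.ncard := by
          rw [h]
          exact Set.ncard_sdiff_singleton_lt_of_mem hω
        exact absurd h2 (not_le.mpr h3)
      obtain ⟨b, c, hb, hc, hbc⟩ := htwo _ hB
      obtain ⟨B', ω, rfl, hω, hB'⟩ := hform b hb
      obtain ⟨C, ω', rfl, hω', hC⟩ := hform c hc
      apply hbc
      have h1 := hno B' ω hb hω hB'
      have h2 := hno C ω' hc hω' hC
      have : B' = C := Subtype.ext (by rw [hB', hC, h1, h2])
      rw [this]
    obtain ⟨B, hB, hB0, hBd⟩ := step2
    -- the chain of sets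
    have hsub : {v | D'.arc (Sum.inr B) (Sum.inl v)} ⊆ N B := fun v hv => (D'.arc_of_arc hv).2
    have hunif := (hN2 B hBd ω₀ hB0).mono hsub
    obtain ⟨A, hA0, hA⟩ := hunif.exists_chain
    have hk0 : ∀ (X : Set V), k ≤ X.ncard → X.Nonempty := by
      intro X hX
      rw [← Set.ncard_pos]
      omega
    have hAk : ∀ i ≤ n, k ≤ (A i).ncard ∧ ∀ z ∈ A i, Sum.inl z ∈ D'.verts := by
      intro i
      induction i with
      | zero =>
        intro _
        rw [hA0]
        constructor
        · have h1 : {w | D'.arc (Sum.inr B) w} =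
              Sum.inl '' {v | D'.arc (Sum.inr B) (Sum.inl v)} := by
            ext y
            rcases y with y | y
            · simp
            · simp only [Set.mem_ofPred_eq, Set.mem_image, reduceCtorEq, and_false,
                exists_false, iff_false]
              intro h
              obtain ⟨h2, _⟩ := D'.arc_of_arc h
              omega
          have h2 := hD' _ hB
          rwa [h1, Set.ncard_image_of_injective _ Sum.inl_injective] at h2
        · intro z hz
          exact D'.right_mem hz
      | succ i ih =>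
        intro hi
        obtain ⟨h1, h2⟩ := ih (by omega)
        obtain ⟨h3, h4⟩ := hA i (by omega)
        obtain ⟨z, hz⟩ := hk0 _ h1
        have h5 := h4 z hz
        constructor
        · have h6 : {w | D'.arc (Sum.inl z) w} =
              Sum.inl '' {v | D'.arc (Sum.inl z) (Sum.inl v)} := by
            ext y
            rcases y with y | y
            · simp
            · simp only [Set.mem_ofPred_eq, Set.mem_image, reduceCtorEq, and_false,
                exists_false, iff_false]
              intro h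
              obtain ⟨h7, _⟩ := D'.arc_of_arc h
              obtain ⟨y', hy'⟩ := h3 z hz
              exact h7 y' hy'
          have h7 := hD' _ (h2 z hz)
          rw [h6, Set.ncard_image_of_injective _ Sum.inl_injective] at h7
          rw [← h5]
          exact h7
        · intro y hy
          rw [← h5] at hy
          exact D'.right_mem hy
    have hAarc : ∀ i < n, ∀ x ∈ A i, ∀ y ∈ A (i + 1), D'.arc (Sum.inl x) (Sum.inl y) := by
      intro i hi x hx y hy
      rw [← (hA i hi).2 x hx] at hy
      exact hy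
    have hArk : ∀ j i : ℕ, i + j + 1 ≤ n → ∀ x ∈ A i, ∀ y ∈ A (i + j + 1), rk y < rk x := by
      intro j
      induction j with
      | zero =>
        intro i hi x hx y hy
        exact hrk x y (D'.arc_of_arc (hAarc i (by omega) x hx y hy))
      | succ j ih =>
        intro i hi x hx y hy
        obtain ⟨z, hz⟩ := hk0 _ (hAk (i + j + 1) (by omega)).1
        have h1 := ih i (by omega) x hx z hz
        have h2 := hrk z y (D'.arc_of_arc (hAarc (i + j + 1) (by omega) z hz y hy))
        omega
    have hAdisj : ∀ i j : ℕ, i < j → j ≤ n → ∀ x ∈ A i, x ∉ A j := by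
      intro i j hij hj x hx hx'
      obtain ⟨m, rfl⟩ : ∃ m, j = i + m + 1 := ⟨j - i - 1, by omega⟩
      exact lt_irrefl _ (hArk m i hj x hx x hx')
    refine ⟨fun i => Sum.inl '' A i, ?_, ?_, ?_⟩
    · intro i hi
      obtain ⟨h1, h2⟩ := hAk i hi
      refine ⟨?_, ?_⟩
      · rwa [Set.ncard_image_of_injective _ Sum.inl_injective]
      · rintro _ ⟨z, hz, rfl⟩
        exact h2 z hz
    · rintro i hi _ ⟨x, hx, rfl⟩ _ ⟨y, hy, rfl⟩
      exact hAarc i hi x hx y hy
    · intro i hi j hj hij
      rw [Set.disjoint_left]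
      rintro _ ⟨x, hx, rfl⟩ ⟨y, hy, hxy⟩
      have hxy' : y = x := Sum.inl_injective hxy
      subst hxy'
      rcases lt_or_gt_of_ne hij with h | h
      · exact hAdisj i j h hj _ hx hy
      · exact hAdisj j i h hi _ hy hx

/-- If `F` has a height function, then for every `d` there is a finite digraph `D` with
`δ⁺(D) ≥ d` such that each subdigraph `D'` of `D` with `δ⁺(D') ≥ max(2, |V(F)|)` contains `F`. -/
theorem exists_digraph_contains {W : Type*} [Finite W] [Nonempty W] (F : Dig W) (h : W → ℤ)
    (hh : ∀ u v, F.arc u v → h v = h u + 1) (d : ℕ) :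
    ∃ (V : Type) (_ : Finite V) (_ : Nonempty V) (D : Dig V), D.MinOut d ∧
      ∀ D' : SubDig D, D'.MinOut (max 2 (Nat.card W)) → D'.Contains F := by
  -- normalise the height function
  obtain ⟨a, ha⟩ := Finite.exists_min h
  obtain ⟨b, hb⟩ := Finite.exists_max h
  let g : W → ℕ := fun w => (h w - h a).toNat
  have hg : ∀ w, (g w : ℤ) = h w - h a := fun w => Int.toNat_of_nonneg (by
    have := ha w
    omega)
  obtain ⟨V, hV1, hV2, D, hD, hmain⟩ := exists_digraph d (g b)
  refine ⟨V, hV1, hV2, D, hD, ?_⟩
  intro D' hD'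
  obtain ⟨A, hA1, hA2, hA3⟩ := hmain _ (le_max_left _ _) D' hD'
  have hgb : ∀ w, g w ≤ g b := by
    intro w
    have h1 := hg w
    have h2 := hg b
    have h3 := hb w
    omega
  have hinj : ∀ i ≤ g b, ∃ ι : W → V, Function.Injective ι ∧ ∀ w, ι w ∈ A i := by
    intro i hi
    have h1 : Nat.card W ≤ Nat.card (A i) := by
      rw [Nat.card_coe_set_eq]
      exact (le_max_right _ _).trans (hA1 i hi).1
    have hfinA : Finite (A i) := inferInstance
    obtain ⟨e⟩ : Nonempty (W ↪ A i) := by
      classical
      have := Fintype.ofFinite W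
      have := Fintype.ofFinite (A i)
      rw [Function.Embedding.nonempty_iff_card_le]
      rwa [← Nat.card_eq_fintype_card, ← Nat.card_eq_fintype_card]
    exact ⟨fun w => (e w : V), Subtype.val_injective.comp e.injective, fun w => (e w).2⟩
  choose! ι hι1 hι2 using hinj
  refine ⟨fun w => ι (g w) w, ?_, ?_, ?_⟩
  · intro w w' hEq
    have hEq' : ι (g w) w = ι (g w') w' := hEq
    by_cases hgw : g w = g w'
    · rw [hgw] at hEq'
      exact hι1 _ (hgb w') hEq'
    · exfalso
      have h1 := Set.disjoint_left.mp (hA3 _ (hgb w) _ (hgb w') hgw) (hι2 _ (hgb w) w)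
      rw [hEq'] at h1
      exact h1 (hι2 _ (hgb w') w')
  · intro w
    exact (hA1 _ (hgb w)).2 (hι2 _ (hgb w) w)
  · intro u v huv
    have h1 := hh u v huv
    have h2 : g v = g u + 1 := by
      have := hg u
      have := hg v
      omega
    have h3 : g u < g b := by
      have := hgb v
      omega
    apply hA2 (g u) h3 _ (hι2 _ (hgb u) u)
    rw [← h2]
    exact hι2 _ (hgb v) v

/-- Every digraph with a height function is not avoidable. -/
theorem result {W : Type*} [Finite W] [Nonempty W] (F : Dig W) (h : W → ℤ)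
    (hh : ∀ u v, F.arc u v → h v = h u + 1) : ¬ Avoidable F := by
  rintro ⟨dF, hdF⟩
  obtain ⟨V, hV1, hV2, D, hD, hmain⟩ :=
    exists_digraph_contains F h hh (dF (max 2 (Nat.card W)))
  obtain ⟨D', h1, h2⟩ := hdF _ V D hD
  exact h1 (hmain D' h2)

end Pool.Agent.Results.MP_f1492e_co.HeightFunctions
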